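import Pool.Agent.Helper13.MP.Defs

/-!
# Project MP, block PIT: the intermediate statements

* `StmtNV` (a), helper37: no zeros of the Dedekind zeta function on the line `Re s = 1`.
* `StmtPN` (b): many primes of degree one in `(x / 2, x]`.
* (c) is `StmtPN → MP.StmtPIT`.
-/

set_option autoImplicit false

namespace Pool.Agent.MPA

open NumberField IsDedekindDomain
open Pool.Agent.HG (Pr nm)

noncomputable section

/-- (a): no zeros of `(s - 1) ζ_F(s)` on the line `Re s = 1`. -/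
def StmtNV : Prop :=
  ∀ (F : Type) [Field F] [NumberField F] (Λ : ℂ → ℂ), Differentiable ℂ Λ →
    (∀ s : ℂ, 1 < s.re → Λ s = (s - 1) * dedekindZeta F s) → ∀ s : ℂ, s.re = 1 → Λ s ≠ 0

/-- the coefficients of `- ζ_F' / ζ_F` -/
def vM (F : Type) [Field F] [NumberField F] (n : ℕ) : ℝ :=
  Real.log n * ∑' p : {p : Pr F × ℕ // 1 ≤ p.2 ∧ nm p.1 ^ p.2 = n}, 1 / (p.1.2 : ℝ)

/-- (a2): the logarithmic derivative; bounds for the coefficients. -/
def StmtLD : Prop :=
  ∀ (F : Type) [Field F] [NumberField F],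
    (∀ s : ℂ, 1 < s.re → LSeries (fun n => (vM F n : ℂ)) s =
      - deriv (dedekindZeta F) s / dedekindZeta F s) ∧
    (∀ n, 0 ≤ vM F n) ∧
    (∀ n, vM F n ≤ Module.finrank ℚ F * ArithmeticFunction.vonMangoldt n) ∧
    ∀ p : ℕ, p.Prime → vM F p = Nat.card {v : Pr F // nm v = p} * Real.log p

/-- (b): many primes of degree one over `ℚ` in `(x / 2, x]`. -/
def StmtPN : Prop :=
  ∀ (F : Type) [Field F] [NumberField F], ∃ (c : ℝ) (x₀ : ℕ), 0 < c ∧ ∀ x : ℕ, x₀ ≤ x →
    ∃ S : Finset (Pr F), (∀ v ∈ S, (nm v).Prime ∧ x < 2 * nm v ∧ nm v ≤ x) ∧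
      c * x / Real.log x ≤ S.card

/-- (c): from the primes of `L` of degree one over `ℚ` to the primes of `k` which split completely
in `L` (`v = P ∩ 𝓞 k`, `nm v = nm P`, at most `[L : ℚ]` primes `P` give the same `v`, the primes of
`L` above `v` are conjugate). -/
def StmtC : Prop := StmtPN → Pool.Agent.MP.StmtPIT

end

end Pool.Agent.MPA
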