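import Pool.Agent.Helper37.MP.Eul

/-!
# The logarithmic derivative of the Dedekind zeta function
-/

set_option autoImplicit false

namespace Pool.Agent.MPA

open NumberField IsDedekindDomain Set
open Pool.Agent.HG (Pr nm)

noncomputable section

variable {F : Type} [Field F] [NumberField F]

theorem finite_nm (n : ℕ) : {v : Pr F | nm v ≤ n}.Finite := by
  have h := Ideal.finite_setOfPred_absNorm_le (S := 𝓞 F) n
  exact h.preimage (fun v _ w _ hvw => HeightOneSpectrum.ext hvw)

theorem nm_le_of_pow {n : ℕ} {v : Pr F} {k : ℕ} (hk : 1 ≤ k) (h : nm v ^ k = n) : nm v ≤ n := by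
  rw [← h]
  exact Nat.le_self_pow (by omega) _

/-- a prime occurs at most once in the index set -/
theorem idx_inj (n : ℕ) : Function.Injective fun p : Idx F n => p.1.1 := by
  intro p q h
  have h1 : p.1.1 = q.1.1 := h
  apply Subtype.ext
  apply Prod.ext h1
  have h2 : nm p.1.1 ^ p.1.2 = nm q.1.1 ^ q.1.2 := p.2.2.trans q.2.2.symm
  rw [← h1] at h2
  exact Nat.pow_right_injective (two_le_nm p.1.1) h2

instance idx_fin (n : ℕ) : Finite (Idx F n) := by
  have : Finite {v : Pr F // nm v ≤ n} := (finite_nm n).to_subtype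
  refine Finite.of_injective (fun p : Idx F n => (⟨p.1.1, nm_le_of_pow p.2.1 p.2.2⟩ :
    {v : Pr F // nm v ≤ n})) fun p q h => idx_inj n ?_
  exact congrArg Subtype.val h

theorem log_eq {n : ℕ} (p : Idx F n) :
    Real.log n * (1 / (p.1.2 : ℝ)) = Real.log (nm p.1.1) := by
  have hk : (p.1.2 : ℝ) ≠ 0 := by
    have := p.2.1
    exact_mod_cast (by omega : p.1.2 ≠ 0)
  have h : Real.log n = p.1.2 * Real.log (nm p.1.1) := by
    have h2 := p.2.2
    rw [← Real.log_pow]
    congr 1
    exact_mod_cast h2.symm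
  rw [h]
  field_simp

theorem vM_eq [∀ n, Fintype (Idx F n)] (n : ℕ) : vM F n = ∑ p : Idx F n, Real.log (nm p.1.1) := by
  unfold vM
  rw [tsum_fintype, Finset.mul_sum]
  exact Finset.sum_congr rfl fun p _ => log_eq p

theorem vM_nonneg (n : ℕ) : 0 ≤ vM F n := by
  unfold vM
  exact mul_nonneg (Real.log_natCast_nonneg n) (tsum_nonneg fun p => by positivity)

/-- the primes above `p`: the product of the norms is at most `p ^ d` -/
theorem sum_log_le (p : ℕ) (hp : p.Prime) (S : Finset (Pr F))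
    (hS : ∀ v ∈ S, (p : 𝓞 F) ∈ v.asIdeal) :
    ∑ v ∈ S, Real.log (nm v) ≤ Module.finrank ℚ F * Real.log p := by
  classical
  have h1 : ∏ v ∈ S, v.asIdeal ∣ Ideal.span {(p : 𝓞 F)} := by
    refine Finset.prod_dvd_of_coprime (fun v _ w _ hvw => ?_) fun v hv => ?_
    · have : IsCoprime v.asIdeal w.asIdeal := by
        rw [Ideal.isCoprime_iff_sup_eq]
        exact v.isMaximal.coprime_of_ne w.isMaximal fun h => hvw (HeightOneSpectrum.ext h)
      exact this
    · rw [Ideal.dvd_span_singleton]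
      exact hS v hv
  have h2 : ∏ v ∈ S, nm v ∣ p ^ Module.finrank ℚ F := by
    have h3 := map_dvd Ideal.absNorm h1
    rw [map_prod, Ideal.absNorm_span_singleton] at h3
    have h4 : (Algebra.norm ℤ (p : 𝓞 F)).natAbs = p ^ Module.finrank ℚ F := by
      have h5 : (p : 𝓞 F) = algebraMap ℤ (𝓞 F) (p : ℤ) := by simp
      rw [h5, Algebra.norm_algebraMap, RingOfIntegers.rank, Int.natAbs_pow, Int.natAbs_natCast]
    rw [h4] at h3
    exact h3
  have h3 : ∏ v ∈ S, nm v ≤ p ^ Module.finrank ℚ F :=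
    Nat.le_of_dvd (pow_pos hp.pos _) h2
  rw [← Real.log_prod (fun v _ => by
    have := two_le_nm v
    exact_mod_cast (by omega : nm v ≠ 0)), ← Real.log_pow]
  refine Real.log_le_log ?_ (by exact_mod_cast h3)
  refine Finset.prod_pos fun v _ => ?_
  have := two_le_nm v
  exact_mod_cast (by omega : 0 < nm v)

/-- a prime of norm a power of `p` lies above `p` -/
theorem nm_mem (v : Pr F) : ((nm v : ℕ) : 𝓞 F) ∈ v.asIdeal := Ideal.absNorm_mem v.asIdeal

theorem mem_of_nm {v : Pr F} {p m : ℕ} (h : nm v ∣ p ^ m) : (p : 𝓞 F) ∈ v.asIdeal := by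
  have h1 : ((p ^ m : ℕ) : 𝓞 F) ∈ v.asIdeal := by
    obtain ⟨c, hc⟩ := h
    rw [hc, Nat.cast_mul]
    exact Ideal.mul_mem_right _ _ (nm_mem v)
  rw [Nat.cast_pow] at h1
  exact v.isPrime.mem_of_pow_mem _ h1

/-- the norm of a prime is a power of a rational prime -/
theorem nm_isPrimePow (v : Pr F) : IsPrimePow (nm v) := by
  have : Finite (𝓞 F ⧸ v.asIdeal) := Ideal.finiteQuotientOfFreeOfNeBot v.asIdeal v.ne_bot
  have := Fintype.ofFinite (𝓞 F ⧸ v.asIdeal)
  have hm := v.isMaximal
  letI : Field (𝓞 F ⧸ v.asIdeal) := Ideal.Quotient.field v.asIdeal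
  have h := FiniteField.isPrimePow_card (𝓞 F ⧸ v.asIdeal)
  have e : nm v = Fintype.card (𝓞 F ⧸ v.asIdeal) := by
    unfold nm
    rw [Ideal.absNorm_apply, Submodule.cardQuot_apply, Nat.card_eq_fintype_card]
  rw [e]
  exact h

theorem vM_le (n : ℕ) : vM F n ≤ Module.finrank ℚ F * ArithmeticFunction.vonMangoldt n := by
  classical
  have : ∀ n, Fintype (Idx F n) := fun n => Fintype.ofFinite _
  rcases isEmpty_or_nonempty (Idx F n) with he | ⟨⟨p₀⟩⟩
  · rw [vM_eq]
    simp only [Finset.univ_eq_empty, Finset.sum_empty]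
    have := ArithmeticFunction.vonMangoldt_nonneg (n := n)
    positivity
  · -- `n` is a power of the prime `p`
    obtain ⟨p, m, hp, hm, hpm⟩ := nm_isPrimePow p₀.1.1
    have hp' : p.Prime := hp.nat_prime
    have hn : n = p ^ (m * p₀.1.2) := by
      rw [pow_mul, hpm]
      exact p₀.2.2.symm
    have hm0 : m * p₀.1.2 ≠ 0 := by
      have := p₀.2.1
      positivity
    have hΛ : ArithmeticFunction.vonMangoldt n = Real.log p := by
      rw [hn, ArithmeticFunction.vonMangoldt_apply_pow hm0,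
        ArithmeticFunction.vonMangoldt_apply_prime hp']
    rw [hΛ, vM_eq]
    have h1 : ∑ q : Idx F n, Real.log (nm q.1.1) =
        ∑ v ∈ Finset.univ.image fun q : Idx F n => q.1.1, Real.log (nm v) := by
      rw [Finset.sum_image fun q _ q' _ h => idx_inj n h]
    rw [h1]
    refine sum_log_le p hp' _ fun v hv => ?_
    obtain ⟨q, -, rfl⟩ := Finset.mem_image.1 hv
    refine mem_of_nm (m := m * p₀.1.2) ?_
    have h2 : nm q.1.1 ∣ nm q.1.1 ^ q.1.2 := dvd_pow_self _ (by have := q.2.1; omega)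
    exact h2.trans (dvd_of_eq (q.2.2.trans hn))

theorem vM_prime {p : ℕ} (hp : p.Prime) :
    vM F p = Nat.card {v : Pr F // nm v = p} * Real.log p := by
  classical
  have : ∀ n, Fintype (Idx F n) := fun n => Fintype.ofFinite _
  have h1 : ∀ q : Idx F p, nm q.1.1 = p := by
    intro q
    have h2 := q.2.2
    have h3 := q.2.1
    have h4' : nm q.1.1 ∣ nm q.1.1 ^ q.1.2 := dvd_pow_self _ (by omega)
    have h4 : nm q.1.1 ∣ p := h4'.trans (dvd_of_eq h2)
    exact ((Nat.dvd_prime hp).1 h4).resolve_left (by have := two_le_nm q.1.1; omega)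
  have e : Idx F p ≃ {v : Pr F // nm v = p} :=
    { toFun := fun q => ⟨q.1.1, h1 q⟩
      invFun := fun v => ⟨(v.1, 1), le_rfl, by rw [pow_one]; exact v.2⟩
      left_inv := fun q => idx_inj p rfl
      right_inv := fun v => rfl }
  rw [vM_eq, Finset.sum_congr rfl fun q _ => by rw [h1 q], Finset.sum_const, nsmul_eq_mul,
    Finset.card_univ, ← Nat.card_eq_fintype_card, Nat.card_congr e]

theorem vM_eq_logMul : (fun n => (vM F n : ℂ)) = LSeries.logMul (bN F) := by
  funext n
  unfold vM LSeries.logMul bN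
  push_cast
  rfl

theorem abscissa_le : LSeries.abscissaOfAbsConv (bN F) ≤ 1 :=
  LSeries.abscissaOfAbsConv_le_of_forall_lt_LSeriesSummable fun y hy =>
    (log_zeta (F := F) (s := (y : ℂ)) (by simpa using hy)).1

theorem hasDerivAt_bN {s : ℂ} (hs : 1 < s.re) :
    HasDerivAt (LSeries (bN F)) (-LSeries (fun n => (vM F n : ℂ)) s) s := by
  rw [vM_eq_logMul]
  exact LSeries_hasDerivAt (lt_of_le_of_lt abscissa_le (by exact_mod_cast hs))

theorem isOpen_re : IsOpen {s : ℂ | 1 < s.re} := isOpen_lt continuous_const Complex.continuous_re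

theorem hasDerivAt_zeta {s : ℂ} (hs : 1 < s.re) :
    HasDerivAt (dedekindZeta F) (-(dedekindZeta F s * LSeries (fun n => (vM F n : ℂ)) s)) s := by
  have h1 := (hasDerivAt_bN (F := F) hs).cexp
  have h2 : (fun s => Complex.exp (LSeries (bN F) s)) =ᶠ[nhds s] dedekindZeta F := by
    filter_upwards [isOpen_re.mem_nhds hs] with z hz
    exact ((log_zeta hz).2).symm
  have h3 := h1.congr_of_eventuallyEq h2.symm
  rw [← (log_zeta hs).2] at h3
  rw [← mul_neg]
  exact h3

theorem zeta_ne {s : ℂ} (hs : 1 < s.re) : dedekindZeta F s ≠ 0 := by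
  rw [(log_zeta hs).2]
  exact Complex.exp_ne_zero _

theorem stmtLD : StmtLD := by
  intro F _ _
  refine ⟨fun s hs => ?_, vM_nonneg, vM_le, fun p hp => vM_prime hp⟩
  rw [(hasDerivAt_zeta hs).deriv]
  have := zeta_ne (F := F) hs
  field_simp

end

end Pool.Agent.MPA
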