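import Pool.Agent.Helper37.MP.LD

/-!
# No zeros of the Dedekind zeta function on the line `Re s = 1`
-/

set_option autoImplicit false

namespace Pool.Agent.MPA

open NumberField IsDedekindDomain Set
open Pool.Agent.HG (Pr nm)

noncomputable section

variable {F : Type} [Field F] [NumberField F]

theorem three_four_one {z : ℂ} (hz : ‖z‖ = 1) : 0 ≤ (3 + 4 * z + z ^ 2).re := by
  have h : z.re ^ 2 + z.im ^ 2 = 1 := by
    have := Complex.sq_norm z
    rw [hz, Complex.normSq_apply] at this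
    nlinarith
  have e : (3 + 4 * z + z ^ 2).re = 3 + 4 * z.re + (z.re ^ 2 - z.im ^ 2) := by
    simp [pow_two]
  rw [e]
  nlinarith [sq_nonneg (z.re + 1)]

theorem bN_real (n : ℕ) : ∃ r : ℝ, 0 ≤ r ∧ bN F n = r := by
  refine ⟨∑' p : Idx F n, 1 / (p.1.2 : ℝ), tsum_nonneg fun p => by positivity, ?_⟩
  unfold bN
  push_cast
  rfl

theorem ge_one (t : ℝ) {σ : ℝ} (hσ : 1 < σ) :
    1 ≤ ‖dedekindZeta F (σ : ℂ) ^ 3 * dedekindZeta F (σ + t * Complex.I) ^ 4 *
      dedekindZeta F (σ + 2 * t * Complex.I)‖ := by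
  have hs0 : 1 < ((σ : ℂ)).re := by simpa using hσ
  have hs1 : 1 < ((σ : ℂ) + t * Complex.I).re := by simpa using hσ
  have hs2 : 1 < ((σ : ℂ) + 2 * t * Complex.I).re := by simpa using hσ
  obtain ⟨a0, e0⟩ := log_zeta (F := F) hs0
  obtain ⟨a1, e1⟩ := log_zeta (F := F) hs1
  obtain ⟨a2, e2⟩ := log_zeta (F := F) hs2
  rw [e0, e1, e2, ← Complex.exp_nat_mul, ← Complex.exp_nat_mul, ← Complex.exp_add,
    ← Complex.exp_add, Complex.norm_exp]
  apply Real.one_le_exp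
  have h0 := a0.hasSum.mul_left 3
  have h1 := a1.hasSum.mul_left 4
  have h2 := a2.hasSum
  have h3 := Complex.hasSum_re ((h0.add h1).add h2)
  have h4 : 0 ≤ (3 * (∑' n, LSeries.term (bN F) σ n) +
      4 * (∑' n, LSeries.term (bN F) (σ + t * Complex.I) n) +
      ∑' n, LSeries.term (bN F) (σ + 2 * t * Complex.I) n).re := by
    refine h3.nonneg fun n => ?_
    rcases eq_or_ne n 0 with rfl | hn
    · simp
    · have hn0 : (n : ℂ) ≠ 0 := by exact_mod_cast hn
      have hnp : (0 : ℝ) < (n : ℝ) := by exact_mod_cast Nat.pos_of_ne_zero hn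
      set w : ℂ := (n : ℂ) ^ (-(t * Complex.I)) with hw
      have hwn : ‖w‖ = 1 := by
        rw [hw, Complex.norm_natCast_cpow_of_pos (Nat.pos_of_ne_zero hn)]
        simp
      have t1 : (n : ℂ) ^ ((σ : ℂ) + t * Complex.I) = (n : ℂ) ^ (σ : ℂ) * w⁻¹ := by
        rw [Complex.cpow_add _ _ hn0, hw, Complex.cpow_neg, inv_inv]
      have t2 : (n : ℂ) ^ ((σ : ℂ) + 2 * t * Complex.I) = (n : ℂ) ^ (σ : ℂ) * (w ^ 2)⁻¹ := by
        rw [Complex.cpow_add _ _ hn0, hw, ← Complex.cpow_nat_mul, ← Complex.cpow_neg]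
        congr 2
        push_cast
        ring
      have hr : (n : ℂ) ^ (σ : ℂ) = (((n : ℝ) ^ σ : ℝ) : ℂ) := by
        rw [Complex.ofReal_cpow hnp.le, Complex.ofReal_natCast]
      have hrp : 0 < (n : ℝ) ^ σ := Real.rpow_pos_of_pos hnp σ
      obtain ⟨b, hb, hbe⟩ := bN_real (F := F) n
      rw [LSeries.term_of_ne_zero hn, LSeries.term_of_ne_zero hn, LSeries.term_of_ne_zero hn, t1,
        t2, hr, hbe]
      have e : 3 * ((b : ℂ) / (((n : ℝ) ^ σ : ℝ) : ℂ)) +
          4 * ((b : ℂ) / ((((n : ℝ) ^ σ : ℝ) : ℂ) * w⁻¹)) +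
          (b : ℂ) / ((((n : ℝ) ^ σ : ℝ) : ℂ) * (w ^ 2)⁻¹) =
          ((b * ((n : ℝ) ^ σ)⁻¹ : ℝ) : ℂ) * (3 + 4 * w + w ^ 2) := by
        rw [div_mul_eq_div_div, div_mul_eq_div_div, div_inv_eq_mul, div_inv_eq_mul]
        push_cast
        ring
      rw [e, Complex.re_ofReal_mul]
      exact mul_nonneg (by positivity) (three_four_one hwn)
  have h5 : (((3 : ℕ) : ℂ) * LSeries (bN F) σ + ((4 : ℕ) : ℂ) * LSeries (bN F) (σ + t * Complex.I) +
      LSeries (bN F) (σ + 2 * t * Complex.I)) = (3 * (∑' n, LSeries.term (bN F) σ n) +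
      4 * (∑' n, LSeries.term (bN F) (σ + t * Complex.I) n) +
      ∑' n, LSeries.term (bN F) (σ + 2 * t * Complex.I) n) := by
    unfold LSeries
    push_cast
    rfl
  rw [h5]
  exact h4

theorem nv_alg {u A B C D D' : ℂ} (hu : u ≠ 0) (hD : D ≠ 0) (hD' : D' ≠ 0) :
    u * (u * A) ^ 3 * (u⁻¹ * (D * B)) ^ 4 * (D' * C) * (D ^ 4)⁻¹ * D'⁻¹ = A ^ 3 * B ^ 4 * C := by
  field_simp

theorem stmtNV : StmtNV := by
  intro F _ _ Λ hΛ hL s hs1
  set t : ℝ := s.im with ht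
  have hs : s = 1 + t * Complex.I := by
    apply Complex.ext <;> simp [hs1, ht]
  rw [hs]
  have hid : Filter.Tendsto (fun σ : ℝ => ((σ : ℂ) - 1)) (nhdsWithin 1 (Ioi 1)) (nhds 0) := by
    have : Continuous (fun σ : ℝ => (σ : ℂ) - 1) := by fun_prop
    have h := (this.tendsto 1).mono_left (nhdsWithin_le_nhds (s := Ioi 1))
    simpa using h
  have hz := tendsto_sub_one_mul_dedekindZeta_nhdsGT F
  have hcont : ∀ c : ℂ, Filter.Tendsto (fun σ : ℝ => Λ ((σ : ℂ) + c)) (nhdsWithin 1 (Ioi 1))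
      (nhds (Λ (((1 : ℝ) : ℂ) + c))) := by
    intro c
    have : Continuous (fun σ : ℝ => Λ ((σ : ℂ) + c)) := hΛ.continuous.comp (by fun_prop)
    exact (this.tendsto 1).mono_left nhdsWithin_le_nhds
  by_cases h0 : t = 0
  · have h1 := hcont 0
    have h2 : Filter.Tendsto (fun σ : ℝ => Λ ((σ : ℂ) + 0)) (nhdsWithin 1 (Ioi 1))
        (nhds ((dedekindZeta_residue F : ℝ) : ℂ)) := by
      refine hz.congr' ?_
      filter_upwards [self_mem_nhdsWithin] with σ hσ
      rw [add_zero, hL _ (by simpa using hσ)]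
    have h3 := tendsto_nhds_unique h1 h2
    rw [h0]
    simp only [Complex.ofReal_zero, zero_mul, Complex.ofReal_one] at h3 ⊢
    rw [h3]
    exact_mod_cast (dedekindZeta_residue_pos F).ne'
  intro hF
  set d := deriv Λ (1 + t * Complex.I) with hdd
  have hφ : HasDerivAt (fun σ : ℝ => Λ ((σ : ℂ) + t * Complex.I)) d 1 := by
    have h1 : HasDerivAt Λ d (((1 : ℝ) : ℂ) + t * Complex.I) := by
      rw [Complex.ofReal_one]
      exact (hΛ _).hasDerivAt
    have h2 : HasDerivAt (fun σ : ℝ => (σ : ℂ) + t * Complex.I) 1 1 := by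
      have := (hasDerivAt_id (1 : ℝ)).ofReal_comp
      simpa using this.add_const (t * Complex.I)
    have := HasDerivAt.comp (1 : ℝ) h1 h2
    rw [mul_one] at this
    exact this
  have hsl : Filter.Tendsto (slope (fun σ : ℝ => Λ ((σ : ℂ) + t * Complex.I)) 1)
      (nhdsWithin 1 (Ioi 1)) (nhds d) :=
    (hasDerivAt_iff_tendsto_slope.mp hφ).mono_left (nhdsWithin_mono _ (fun x hx => ne_of_gt hx))
  have hc1 : Filter.Tendsto (fun σ : ℝ => (((σ : ℂ) - 1 + t * Complex.I) ^ 4)⁻¹)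
      (nhdsWithin 1 (Ioi 1)) (nhds (((0 + t * Complex.I : ℂ) ^ 4)⁻¹)) := by
    refine ((hid.add_const _).pow 4).inv₀ ?_
    rw [zero_add]
    have : (t : ℂ) ≠ 0 := by exact_mod_cast h0
    exact pow_ne_zero _ (mul_ne_zero this Complex.I_ne_zero)
  have hc2 : Filter.Tendsto (fun σ : ℝ => ((σ : ℂ) - 1 + 2 * t * Complex.I)⁻¹)
      (nhdsWithin 1 (Ioi 1)) (nhds ((0 + 2 * t * Complex.I : ℂ)⁻¹)) := by
    refine (hid.add_const _).inv₀ ?_
    rw [zero_add]
    have : (t : ℂ) ≠ 0 := by exact_mod_cast h0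
    exact mul_ne_zero (mul_ne_zero two_ne_zero this) Complex.I_ne_zero
  have hprod := ((((hid.mul (hz.pow 3)).mul (hsl.pow 4)).mul (hcont (2 * t * Complex.I))).mul
    hc1).mul hc2
  rw [zero_mul, zero_mul, zero_mul, zero_mul, zero_mul] at hprod
  have hge : ∀ᶠ σ : ℝ in nhdsWithin 1 (Ioi 1), 1 ≤ ‖((σ : ℂ) - 1) *
      (((σ : ℂ) - 1) * dedekindZeta F σ) ^ 3 *
      (slope (fun σ : ℝ => Λ ((σ : ℂ) + t * Complex.I)) 1 σ) ^ 4 *
      Λ ((σ : ℂ) + 2 * t * Complex.I) * (((σ : ℂ) - 1 + t * Complex.I) ^ 4)⁻¹ *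
      ((σ : ℂ) - 1 + 2 * t * Complex.I)⁻¹‖ := by
    filter_upwards [self_mem_nhdsWithin] with σ hσ
    have hσ' : 1 < σ := hσ
    have h1 := ge_one (F := F) t hσ'
    have hs1 : 1 < ((σ : ℂ) + t * Complex.I).re := by simpa using hσ'
    have hs2 : 1 < ((σ : ℂ) + 2 * t * Complex.I).re := by simpa using hσ'
    have hne : (σ : ℂ) - 1 ≠ 0 := by
      rw [sub_ne_zero]
      exact_mod_cast hσ'.ne'
    have hn1 : (σ : ℂ) - 1 + t * Complex.I ≠ 0 := by
      intro h
      have := congrArg Complex.re h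
      simp at this
      linarith
    have hn2 : (σ : ℂ) - 1 + 2 * t * Complex.I ≠ 0 := by
      intro h
      have := congrArg Complex.re h
      simp at this
      linarith
    have e1 : Λ (σ + t * Complex.I) =
        ((σ : ℂ) - 1 + t * Complex.I) * dedekindZeta F (σ + t * Complex.I) := by
      rw [hL _ hs1]
      ring
    have e2 : Λ (σ + 2 * t * Complex.I) =
        ((σ : ℂ) - 1 + 2 * t * Complex.I) * dedekindZeta F (σ + 2 * t * Complex.I) := by
      rw [hL _ hs2]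
      ring
    have e : ((σ : ℂ) - 1) * (((σ : ℂ) - 1) * dedekindZeta F σ) ^ 3 *
        (slope (fun σ : ℝ => Λ ((σ : ℂ) + t * Complex.I)) 1 σ) ^ 4 *
        Λ ((σ : ℂ) + 2 * t * Complex.I) * (((σ : ℂ) - 1 + t * Complex.I) ^ 4)⁻¹ *
        ((σ : ℂ) - 1 + 2 * t * Complex.I)⁻¹ =
        dedekindZeta F σ ^ 3 * dedekindZeta F (σ + t * Complex.I) ^ 4 *
        dedekindZeta F (σ + 2 * t * Complex.I) := by
      rw [slope_def_module]
      simp only [Complex.ofReal_one]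
      rw [hF, sub_zero, Complex.real_smul, e1, e2]
      push_cast
      exact nv_alg hne hn1 hn2
    rw [e]
    exact h1
  have hlim := hprod.norm
  rw [norm_zero] at hlim
  have := ge_of_tendsto hlim hge
  linarith

end

end Pool.Agent.MPA
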