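import Pool.Agent.Helper37.MP.Defs
import Pool.Agent.Helper70.Art.Zeta

/-!
# The logarithm of the Dedekind zeta function as a Dirichlet series

`ζ_F(s) = exp (∑ b(n) n^{-s})` for `Re s > 1`, where `b(n) = ∑_{N P^k = n} 1 / k`.
-/

set_option autoImplicit false

namespace Pool.Agent.MPA

open NumberField IsDedekindDomain Set
open Pool.Agent.HG (Pr nm)
open Pool.Agent.Helper70.Art (dedekindZeta_hasProd summable_primes)

noncomputable section

variable (F : Type) [Field F] [NumberField F]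

/-- The index set of the coefficient. -/
abbrev Idx (n : ℕ) : Type := {p : Pr F × ℕ // 1 ≤ p.2 ∧ nm p.1 ^ p.2 = n}

/-- the coefficients of `log ζ_F` -/
def bN (n : ℕ) : ℂ := ∑' p : Idx F n, 1 / (p.1.2 : ℂ)

variable {F}

theorem two_le_nm (v : Pr F) : 2 ≤ nm v := by
  have h0 : Ideal.absNorm v.asIdeal ≠ 0 := by
    rw [Ne, Ideal.absNorm_eq_zero_iff]; exact v.ne_bot
  have h1 : Ideal.absNorm v.asIdeal ≠ 1 := by
    rw [Ne, Ideal.absNorm_eq_one_iff]; exact v.isPrime.ne_top
  unfold nm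
  omega

/-- the local factors -/
def zz (s : ℂ) (v : Pr F) : ℂ := ((nm v : ℕ) : ℂ) ^ (-s)

theorem norm_zz (s : ℂ) (v : Pr F) : ‖zz s v‖ = (nm v : ℝ) ^ (-s.re) := by
  unfold zz
  have h2 := two_le_nm v
  rw [Complex.norm_natCast_cpow_of_pos (by omega)]
  simp

theorem norm_zz_le {s : ℂ} (hs : 1 < s.re) (v : Pr F) : ‖zz s v‖ ≤ 1 / 2 := by
  rw [norm_zz]
  have h2 : (2 : ℝ) ≤ nm v := by exact_mod_cast two_le_nm v
  calc (nm v : ℝ) ^ (-s.re) ≤ (nm v : ℝ) ^ (-1 : ℝ) :=
        Real.rpow_le_rpow_of_exponent_le (by linarith) (by linarith)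
    _ = 1 / (nm v : ℝ) := by rw [Real.rpow_neg_one, one_div]
    _ ≤ 1 / 2 := one_div_le_one_div_of_le (by norm_num) h2

theorem summable_zz {s : ℂ} (hs : 1 < s.re) : Summable fun v : Pr F => ‖zz s v‖ :=
  summable_primes F s hs

/-- The double summand. -/
def gg (s : ℂ) (p : Pr F × ℕ) : ℂ := zz s p.1 ^ (p.2 + 1) / ((p.2 + 1 : ℕ) : ℂ)

theorem norm_gg_le (s : ℂ) (v : Pr F) (k : ℕ) : ‖gg s (v, k)‖ ≤ ‖zz s v‖ * ‖zz s v‖ ^ k := by
  unfold gg
  rw [norm_div, norm_pow, pow_succ, Complex.norm_natCast, mul_comm]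
  apply div_le_self (by positivity)
  push_cast
  have : (0 : ℝ) ≤ k := by positivity
  linarith

theorem summable_gg {s : ℂ} (hs : 1 < s.re) : Summable (gg (F := F) s) := by
  apply Summable.of_norm
  have h1 : Summable fun p : Pr F × ℕ => ‖zz s p.1‖ * (1 / 2 : ℝ) ^ p.2 :=
    (summable_zz hs).mul_of_nonneg (summable_geometric_two) (fun _ => norm_nonneg _)
      (fun _ => by positivity)
  refine Summable.of_nonneg_of_le (fun _ => norm_nonneg _) (fun p => ?_) h1
  refine (norm_gg_le s p.1 p.2).trans ?_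
  exact mul_le_mul_of_nonneg_left (pow_le_pow_left₀ (norm_nonneg _) (norm_zz_le hs p.1) _)
    (norm_nonneg _)

theorem hasSum_gg_fib {s : ℂ} (hs : 1 < s.re) (v : Pr F) :
    HasSum (fun k => gg s (v, k)) (-Complex.log (1 - zz s v)) := by
  have h1 : ‖zz s v‖ < 1 := lt_of_le_of_lt (norm_zz_le hs v) (by norm_num)
  have h2 := Complex.hasSum_taylorSeries_neg_log h1
  have h3 := (hasSum_nat_add_iff' 1).2 h2
  simpa [gg] using h3

/-- The map to norms. -/
def mm (p : Pr F × ℕ) : ℕ := nm p.1 ^ (p.2 + 1)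

/-- The fibre over `n`. -/
def EE (n : ℕ) : Idx F n ≃ ↑(mm (F := F) ⁻¹' {n}) where
  toFun p := ⟨(p.1.1, p.1.2 - 1), by
    have h := p.2.1
    have h2 := p.2.2
    simp only [Set.mem_preimage, Set.mem_singleton_iff, mm]
    rw [Nat.sub_add_cancel h]; exact h2⟩
  invFun b := ⟨(b.1.1, b.1.2 + 1), by simp, b.2⟩
  left_inv p := by
    have h := p.2.1
    apply Subtype.ext
    simp only
    rw [Nat.sub_add_cancel h]
  right_inv b := by
    apply Subtype.ext
    simp

theorem pow_cpow (N k : ℕ) (s : ℂ) : ((N ^ k : ℕ) : ℂ) ^ s = ((N : ℂ) ^ s) ^ k := by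
  induction k with
  | zero => simp
  | succ k ih => rw [pow_succ, Nat.cast_mul, Complex.natCast_mul_natCast_cpow, ih, pow_succ]

theorem term_eq (s : ℂ) (n : ℕ) :
    ∑' b : ↑(mm (F := F) ⁻¹' {n}), gg (F := F) s b.1 = LSeries.term (bN F) s n := by
  rcases Nat.eq_zero_or_pos n with h | h
  · subst h
    rw [LSeries.term_zero]
    have : IsEmpty ↑(mm (F := F) ⁻¹' {0}) := ⟨fun b => by
      have h1 : mm b.1 = 0 := b.2
      have h2 := two_le_nm b.1.1
      exact (pow_ne_zero _ (by omega)) h1⟩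
    exact tsum_empty
  · rw [LSeries.term_of_ne_zero (by omega), bN, ← tsum_div_const, ← (EE n).tsum_eq]
    refine tsum_congr fun p => ?_
    have hk := p.2.1
    have hn := p.2.2
    have h2 := two_le_nm p.1.1
    change zz s p.1.1 ^ (p.1.2 - 1 + 1) / ((p.1.2 - 1 + 1 : ℕ) : ℂ) = _
    rw [Nat.sub_add_cancel hk]
    unfold zz
    have hns : (n : ℂ) ^ s = ((nm p.1.1 : ℂ) ^ s) ^ p.1.2 := by
      rw [← pow_cpow, hn]
    rw [hns, Complex.cpow_neg, inv_pow]
    ring

/-- **The logarithm of the Dedekind zeta function.** -/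
theorem log_zeta {s : ℂ} (hs : 1 < s.re) :
    LSeriesSummable (bN F) s ∧ dedekindZeta F s = Complex.exp (LSeries (bN F) s) := by
  have hg := (summable_gg (F := F) hs).hasSum
  have h1 : ∑' p, gg (F := F) s p = ∑' v : Pr F, -Complex.log (1 - zz s v) := by
    rw [(summable_gg hs).tsum_prod]
    exact tsum_congr fun v => (hasSum_gg_fib hs v).tsum_eq
  have h1' : Summable fun v : Pr F => -Complex.log (1 - zz s v) := by
    have := (summable_gg (F := F) hs).prod
    refine this.congr fun v => ?_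
    exact (hasSum_gg_fib hs v).tsum_eq
  have h2 := hg.tsum_fiberwise mm
  have h3 : HasSum (LSeries.term (bN F) s) (∑' p, gg (F := F) s p) := by
    have h4 : (fun c => ∑' b : ↑(mm (F := F) ⁻¹' {c}), gg (F := F) s b.1) = LSeries.term (bN F) s :=
      funext fun n => term_eq s n
    rw [← h4]
    exact h2
  have h4 : LSeries (bN F) s = ∑' v : Pr F, -Complex.log (1 - zz s v) := by
    rw [← h1]; exact h3.tsum_eq
  refine ⟨h3.summable, ?_⟩
  rw [h4]
  have h5 := h1'.hasSum.cexp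
  have h6 := dedekindZeta_hasProd F s hs
  have h7 : (Complex.exp ∘ fun v : Pr F => -Complex.log (1 - zz s v)) =
      fun v : Pr F => (1 - ((Ideal.absNorm v.asIdeal : ℕ) : ℂ) ^ (-s))⁻¹ := by
    funext v
    have hz := norm_zz_le hs v
    have hne : 1 - zz s v ≠ 0 := by
      intro h0
      have : zz s v = 1 := (sub_eq_zero.1 h0).symm
      rw [this] at hz
      norm_num at hz
    rw [Function.comp_apply, Complex.exp_neg, Complex.exp_log hne]
    rfl
  rw [h7] at h5
  exact h6.unique h5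

end

end Pool.Agent.MPA
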